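import Mathlib

open Finset Relation

namespace Pool.Agent.P.MP_250062_co

variable {V : Type*} [Fintype V] [DecidableEq V]

theorem z2 (a : ZMod 2) : a = 0 ∨ a = 1 := by revert a; decide

theorem z2_ne {a : ZMod 2} : a ≠ 0 ↔ a = 1 := by revert a; decide

theorem z2_add_self (a : ZMod 2) : a + a = 0 := by revert a; decide

/-- A symmetric function supported on a relation. -/
structure Sup (E : V → V → Prop) (f : V → V → ZMod 2) : Prop where
  symm : ∀ x y, f x y = f y x
  sup : ∀ x y, f x y ≠ 0 → E x y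

/-- Parity of the degree. -/
def bd (f : V → V → ZMod 2) (x : V) : ZMod 2 := ∑ y, f x y

/-- Indicator of a single edge. -/
def edge (a b : V) (x y : V) : ZMod 2 :=
  (if x = a ∧ y = b then 1 else 0) + (if x = b ∧ y = a then 1 else 0)

omit [Fintype V] in
theorem edge_symm (a b x y : V) : edge a b x y = edge a b y x := by
  simp only [edge, and_comm, add_comm]

omit [Fintype V] in
theorem edge_ne {a b x y : V} (h : edge a b x y ≠ 0) : (x = a ∧ y = b) ∨ (x = b ∧ y = a) := by
  by_contra hc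
  rw [not_or] at hc
  simp [edge, hc.1, hc.2] at h

theorem bd_edge (a b x : V) :
    bd (edge a b) x = (if x = a then 1 else 0) + (if x = b then 1 else 0) := by
  simp only [bd, edge, sum_add_distrib]
  congr 1
  · by_cases h : x = a <;> simp [h]
  · by_cases h : x = b <;> simp [h]

omit [DecidableEq V] in
theorem bd_add (f g : V → V → ZMod 2) (x : V) :
    bd (fun x y => f x y + g x y) x = bd f x + bd g x := sum_add_distrib

omit [Fintype V] [DecidableEq V] in
theorem Sup.add {E : V → V → Prop} {f g : V → V → ZMod 2} (hf : Sup E f) (hg : Sup E g) :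
    Sup E fun x y => f x y + g x y :=
  ⟨fun x y => by rw [hf.symm, hg.symm], fun x y h => by
    by_cases h1 : f x y = 0
    · exact hg.sup x y (by simpa [h1] using h)
    · exact hf.sup x y h1⟩

omit [Fintype V] [DecidableEq V] in
theorem Sup.mono {E E' : V → V → Prop} {f : V → V → ZMod 2} (hf : Sup E f)
    (h : ∀ x y, E x y → E' x y) : Sup E' f := ⟨hf.symm, fun x y h' => h x y (hf.sup x y h')⟩

omit [Fintype V] in
theorem sup_edge {E : V → V → Prop} {a b : V} (h : E a b) (h' : E b a) : Sup E (edge a b) :=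
  ⟨edge_symm a b, fun x y hxy => by
    rcases edge_ne hxy with ⟨rfl, rfl⟩ | ⟨rfl, rfl⟩
    exacts [h, h']⟩

theorem exists_path {E : V → V → Prop} (hE : ∀ x y, E x y → E y x) {r x : V}
    (h : ReflTransGen E r x) : ∃ f, Sup E f ∧
      ∀ z, bd f z = (if z = r then 1 else 0) + (if z = x then 1 else 0) := by
  induction h with
  | refl => exact ⟨fun _ _ => 0, ⟨fun _ _ => rfl, fun _ _ h => (h rfl).elim⟩, fun z => by
      simp [bd, z2_add_self]⟩
  | @tail b c _ hbc ih =>
    obtain ⟨f, hf, hb⟩ := ih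
    refine ⟨_, hf.add (sup_edge hbc (hE _ _ hbc)), fun z => ?_⟩
    rw [bd_add, hb, bd_edge, add_assoc, ← add_assoc (if z = b then 1 else 0), z2_add_self, zero_add]

theorem exists_join {E : V → V → Prop} (hE : ∀ x y, E x y → E y x) (r : V) (T : V → ZMod 2)
    (hT : ∀ x, T x ≠ 0 → ReflTransGen E r x) :
    ∃ f, Sup E f ∧ ∀ z, bd f z = T z + if z = r then ∑ x, T x else 0 := by
  have : ∀ x, ∃ f, Sup E f ∧ ∀ z, bd f z =
      T x * ((if z = r then 1 else 0) + (if z = x then 1 else 0)) := fun x => by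
    by_cases h : T x = 0
    · exact ⟨fun _ _ => 0, ⟨fun _ _ => rfl, fun _ _ h => (h rfl).elim⟩, fun z => by simp [bd, h]⟩
    · obtain ⟨f, hf, hb⟩ := exists_path hE (hT x h)
      exact ⟨f, hf, fun z => by rw [hb, z2_ne.mp h, one_mul]⟩
  choose p hp hb using this
  refine ⟨fun a b => ∑ x, p x a b, ⟨fun a b => sum_congr rfl fun x _ => (hp x).symm a b,
    fun a b h => ?_⟩, fun z => ?_⟩
  · obtain ⟨x, -, hx⟩ := exists_ne_zero_of_sum_ne_zero h
    exact (hp x).sup a b hx
  · unfold bd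
    rw [sum_comm]
    change ∑ x, bd (p x) z = _
    simp only [hb, mul_add, sum_add_distrib]
    rw [add_comm]
    congr 1
    · simp
    · by_cases h : z = r <;> simp [h]

omit [DecidableEq V] in
theorem handshake {f : V → V → ZMod 2} (hs : ∀ x y, f x y = f y x) (h0 : ∀ x, f x x = 0) :
    ∑ x, bd f x = 0 := by
  classical
  unfold bd
  rw [← sum_product']
  refine sum_involution (fun p _ => p.swap) (fun p _ => ?_) (fun p _ hp h => hp ?_)
    (fun p _ => by simp) (fun p _ => rfl)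
  · rw [Prod.fst_swap, Prod.snd_swap, hs p.2, z2_add_self]
  · have : p.2 = p.1 := congrArg Prod.fst h
    rw [this, h0]

theorem eq_of_others {a b : V → ZMod 2} (s : V) (h : ∀ x, x ≠ s → a x = b x)
    (hs : ∑ x, a x = ∑ x, b x) (x : V) : a x = b x := by
  by_cases hx : x = s
  · subst hx
    rw [← add_sum_erase _ _ (mem_univ x), ← add_sum_erase _ b (mem_univ x),
      sum_congr rfl fun y hy => h y (ne_of_mem_erase hy)] at hs
    exact add_right_cancel hs
  · exact h x hx

/-- Every symmetric function is a potential difference along `E`. -/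
def PP (E : V → V → Prop) : Prop :=
  ∀ g : V → V → ZMod 2, (∀ x y, g x y = g y x) →
    ∃ β : V → ZMod 2, ∀ x y, E x y → β x + β y = g x y

omit [Fintype V] [DecidableEq V] in
theorem PP.mono {E E' : V → V → Prop} (h : PP E') (h' : ∀ x y, E x y → E' x y) : PP E :=
  fun g hg => (h g hg).imp fun _ hβ x y hxy => hβ x y (h' x y hxy)

variable (G : SimpleGraph V)

/-- The set `A` induces a connected subgraph (or is empty). -/
def Conn (A : Finset V) : Prop :=
  ∀ X : Finset V, X ⊆ A → X.Nonempty → (∀ x ∈ X, ∀ y ∈ A, G.Adj x y → y ∈ X) → A ⊆ X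

variable {G}

omit [Fintype V] [DecidableEq V] in
theorem conn_singleton (a : V) : Conn G {a} := fun X hX ⟨x, hx⟩ _ => by
  rw [mem_singleton.mp (hX hx)] at hx
  exact singleton_subset_iff.mpr hx

omit [Fintype V] in
theorem Conn.union {A B : Finset V} (hA : Conn G A) (hB : Conn G B) {a b : V} (ha : a ∈ A)
    (hb : b ∈ B) (hab : G.Adj a b) : Conn G (A ∪ B) := by
  intro X hX ⟨x, hx⟩ hc
  have h1 : ∀ y ∈ X, y ∈ A → A ⊆ X := fun y hy hyA =>
    (hA (X ∩ A) inter_subset_right ⟨y, mem_inter.mpr ⟨hy, hyA⟩⟩ fun p hp q hq hpq =>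
      mem_inter.mpr ⟨hc p (mem_inter.mp hp).1 q (mem_union_left _ hq) hpq, hq⟩).trans
      inter_subset_left
  have h2 : ∀ y ∈ X, y ∈ B → B ⊆ X := fun y hy hyB =>
    (hB (X ∩ B) inter_subset_right ⟨y, mem_inter.mpr ⟨hy, hyB⟩⟩ fun p hp q hq hpq =>
      mem_inter.mpr ⟨hc p (mem_inter.mp hp).1 q (mem_union_right _ hq) hpq, hq⟩).trans
      inter_subset_left
  rcases mem_union.mp (hX hx) with h | h
  · have h3 := h1 x hx h
    exact union_subset h3 (h2 b (hc a (h3 ha) b (mem_union_right _ hb) hab) hb)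
  · have h3 := h2 x hx h
    exact union_subset (h1 a (hc b (h3 hb) a (mem_union_left _ ha) hab.symm) ha) h3

omit [Fintype V] in
theorem Conn.insert {A : Finset V} (hA : Conn G A) {a b : V} (ha : a ∈ A) (hab : G.Adj a b) :
    Conn G (insert b A) := by
  rw [insert_eq, union_comm]
  exact hA.union (conn_singleton b) ha (mem_singleton_self b) hab

omit [Fintype V] in
theorem exists_tree {A : Finset V} (hA : Conn G A) {r : V} (hr : r ∈ A) :
    ∃ τ : V → V → Prop, (∀ x y, τ x y → τ y x) ∧ (∀ x y, τ x y → G.Adj x y ∧ x ∈ A ∧ y ∈ A) ∧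
      PP τ ∧ ∀ x ∈ A, ReflTransGen τ r x := by
  classical
  let P : Finset V → Prop := fun B => r ∈ B ∧ ∃ τ : V → V → Prop, (∀ x y, τ x y → τ y x) ∧
    (∀ x y, τ x y → G.Adj x y ∧ x ∈ B ∧ y ∈ B) ∧ PP τ ∧ ∀ x ∈ B, ReflTransGen τ r x
  obtain ⟨B, hB, hmax⟩ := exists_max_image (A.powerset.filter P) card ⟨{r}, by
    refine mem_filter.mpr ⟨by simpa using hr, mem_singleton_self r, fun _ _ => False,
      fun _ _ h => h, fun _ _ h => h.elim, fun g _ => ⟨0, fun _ _ h => h.elim⟩, fun x hx => ?_⟩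
    rw [mem_singleton.mp hx]⟩
  obtain ⟨hBA, hrB, τ, h1, h2, h3, h4⟩ := mem_filter.mp hB
  rw [mem_powerset] at hBA
  have hAB : A ⊆ B := by
    refine hA B hBA ⟨r, hrB⟩ fun x hx y hy hxy => ?_
    by_contra hyB
    have := hmax (insert y B) (mem_filter.mpr ⟨mem_powerset.mpr (insert_subset hy hBA),
      mem_insert_of_mem hrB, fun a b => τ a b ∨ (a = x ∧ b = y) ∨ (a = y ∧ b = x),
      ?_, ?_, ?_, ?_⟩)
    · rw [card_insert_of_notMem hyB] at this
      omega
    · rintro a b (h | h | h)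
      exacts [Or.inl (h1 _ _ h), Or.inr (Or.inr h.symm), Or.inr (Or.inl h.symm)]
    · rintro a b (h | ⟨rfl, rfl⟩ | ⟨rfl, rfl⟩)
      · exact ⟨(h2 a b h).1, mem_insert_of_mem (h2 a b h).2.1, mem_insert_of_mem (h2 a b h).2.2⟩
      · exact ⟨hxy, mem_insert_of_mem hx, mem_insert_self _ _⟩
      · exact ⟨hxy.symm, mem_insert_self _ _, mem_insert_of_mem hx⟩
    · intro g hg
      obtain ⟨β, hβ⟩ := h3 g hg
      have hxy' : x ≠ y := hxy.ne
      refine ⟨Function.update β y (β x + g x y), ?_⟩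
      rintro a b (h | ⟨rfl, rfl⟩ | ⟨rfl, rfl⟩)
      · rw [Function.update_of_ne (ne_of_mem_of_not_mem (h2 a b h).2.1 hyB),
          Function.update_of_ne (ne_of_mem_of_not_mem (h2 a b h).2.2 hyB), hβ a b h]
      · rw [Function.update_of_ne hxy', Function.update_self, ← add_assoc, z2_add_self, zero_add]
      · rw [Function.update_of_ne hxy', Function.update_self, add_comm, ← add_assoc, z2_add_self,
          zero_add, hg]
    · intro a ha
      rcases mem_insert.mp ha with rfl | ha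
      · exact (ReflTransGen.mono (fun _ _ h => Or.inl h) _ _ (h4 x hx)).tail
          (Or.inr (Or.inl ⟨rfl, rfl⟩))
      · exact ReflTransGen.mono (fun _ _ h => Or.inl h) _ _ (h4 a ha)
  obtain rfl := Subset.antisymm hAB hBA
  exact ⟨τ, h1, h2, h3, h4⟩

/-- A join supported on a tree. -/
theorem exists_tjoin {A : Finset V} (hA : Conn G A) {r : V} (hr : r ∈ A) (T : V → ZMod 2)
    (hT : ∀ x, T x ≠ 0 → x ∈ A) :
    ∃ f, Sup (fun x y => G.Adj x y ∧ x ∈ A ∧ y ∈ A) f ∧ PP (fun x y => f x y ≠ 0) ∧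
      ∀ z, bd f z = T z + if z = r then ∑ x, T x else 0 := by
  obtain ⟨τ, h1, h2, h3, h4⟩ := exists_tree hA hr
  obtain ⟨f, hf, hb⟩ := exists_join h1 r T fun x hx => h4 x (hT x hx)
  exact ⟨f, hf.mono h2, h3.mono hf.sup, hb⟩

end Pool.Agent.P.MP_250062_co
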