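import Mathlib
import Pool.Agent.P.MP_250062_co.Tools

open Finset Relation

namespace Pool.Agent.P.MP_250062_co

variable {V : Type*} [Fintype V] [DecidableEq V] (G : SimpleGraph V) [DecidableRel G.Adj]

/-- Odd 3-edge-colourability. -/
def Col : Prop :=
  ∃ c : Sym2 V → Fin 3, ∀ (v : V) (i : Fin 3),
    #{e ∈ G.incidenceFinset v | c e = i} = 0 ∨ Odd #{e ∈ G.incidenceFinset v | c e = i}

/-- Indicator of adjacency. -/
def nb (w x : V) : ZMod 2 := if G.Adj x w then 1 else 0

variable {G}

theorem card_inc (c : Sym2 V → Fin 3) (v : V) (i : Fin 3) :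
    #{e ∈ G.incidenceFinset v | c e = i} = #{y | G.Adj v y ∧ c s(v, y) = i} := by
  symm
  refine card_bij (fun y _ => s(v, y)) (fun y hy => ?_) (fun y _ z _ h => Sym2.congr_right.mp h)
    fun e he => ?_
  · simp only [mem_filter, mem_univ, true_and] at hy
    simp [hy.1, hy.2, SimpleGraph.incidenceSet]
  · simp only [mem_filter, SimpleGraph.mem_incidenceFinset, SimpleGraph.incidenceSet,
      Set.mem_ofPred_eq] at he
    obtain ⟨⟨h1, y, rfl⟩, h2⟩ := he
    exact ⟨y, by simpa using ⟨h1, h2⟩, rfl⟩

omit [DecidableEq V] in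
theorem odd_or {p : V → Prop} [DecidablePred p] {k : V → ZMod 2}
    (hk : ∀ y, k y = if p y then 1 else 0) (h : ∑ y, k y = 1 ∨ ∀ y, k y = 0) :
    #{y | p y} = 0 ∨ Odd #{y | p y} := by
  rcases h with h | h
  · right
    rw [← ZMod.natCast_eq_one_iff_odd, ← h]
    simp [hk]
  · left
    rw [card_eq_zero, filter_eq_empty_iff]
    intro y _ hy
    have := h y
    rw [hk, if_pos hy] at this
    exact one_ne_zero this

omit [DecidableEq V] in
theorem sum_nb (x : V) : ∑ y, nb G x y = G.degree x := by
  simp [nb, ← SimpleGraph.card_neighborFinset_eq_degree, SimpleGraph.neighborFinset_eq_filter,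
    G.adj_comm]

theorem col_of {h α : V → V → ZMod 2} (hh : Sup G.Adj h) (hα : Sup (fun x y => h x y ≠ 0) α)
    (hc : ∀ x, (G.degree x : ZMod 2) + bd h x = 1 ∨ ∀ y, G.Adj x y → h x y ≠ 0)
    (ha : ∀ x, bd α x = 1 ∨ ∀ y, α x y = 0)
    (hb : ∀ x, bd h x + bd α x = 1 ∨ ∀ y, h x y = α x y) : Col G := by
  refine ⟨Sym2.lift ⟨fun x y => if h x y = 0 then 2 else if α x y = 0 then 1 else 0,
    fun x y => by simp only [hh.symm x y, hα.symm x y]⟩, fun v i => ?_⟩
  rw [card_inc]
  simp only [Sym2.lift_mk]
  have h1 : ∀ y, h v y ≠ 0 → G.Adj v y := hh.sup v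
  have h2 : ∀ y, α v y ≠ 0 → h v y ≠ 0 := hα.sup v
  fin_cases i
  · refine odd_or (k := α v) (fun y => ?_) (ha v)
    have h3 := h1 y
    have h4 := h2 y
    rcases z2 (h v y) with e | e <;> rcases z2 (α v y) with e' | e' <;> simp_all
  · refine odd_or (k := fun y => h v y + α v y) (fun y => ?_) ((hb v).imp (fun e => ?_) fun e y => ?_)
    · have h3 := h1 y
      have h4 := h2 y
      rcases z2 (h v y) with e | e <;> rcases z2 (α v y) with e' | e' <;> simp_all [z2_add_self]
    · rw [← e, sum_add_distrib]; rfl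
    · rw [e, z2_add_self]
  · refine odd_or (k := fun y => nb G v y + h v y) (fun y => ?_)
      ((hc v).imp (fun e => ?_) fun e y => ?_)
    · have h3 := h1 y
      rcases z2 (h v y) with e | e <;> rcases z2 (α v y) with e' | e' <;>
        by_cases e'' : G.Adj v y <;> simp_all [nb, G.adj_comm y v, z2_add_self]
    · rw [← e, sum_add_distrib, sum_nb]; rfl
    · by_cases e' : G.Adj v y
      · rw [nb, if_pos e'.symm, z2_ne.mp (e y e'), z2_add_self]
      · rw [nb, if_neg fun h => e' h.symm, zero_add]
        by_contra h'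
        exact e' (h1 y h')

/-- The star at `w` weighted by `ω`. -/
def star (w : V) (ω : V → ZMod 2) (x y : V) : ZMod 2 :=
  (if y = w then ω x else 0) + (if x = w then ω y else 0)

omit [Fintype V] in
theorem star_symm (w : V) (ω : V → ZMod 2) (x y : V) : star w ω x y = star w ω y x := add_comm _ _

omit [Fintype V] in
theorem star_of_ne {w x : V} (ω : V → ZMod 2) (hx : x ≠ w) (y : V) :
    star w ω x y = if y = w then ω x else 0 := by simp [star, hx]

omit [Fintype V] in
theorem star_self {w : V} {ω : V → ZMod 2} (hw : ω w = 0) (y : V) : star w ω w y = ω y := by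
  simp [star, hw]

theorem bd_star {w x : V} (ω : V → ZMod 2) (hx : x ≠ w) : bd (star w ω) x = ω x := by
  simp [bd, star_of_ne ω hx]

theorem bd_star_self {w : V} {ω : V → ZMod 2} (hw : ω w = 0) : bd (star w ω) w = ∑ y, ω y := by
  simp [bd, star_self hw]

omit [DecidableEq V] [Fintype V] in
theorem nb_self (w : V) : nb G w w = 0 := by simp [nb]

omit [DecidableEq V] [Fintype V] in
theorem nb_ne {w x : V} : nb G w x ≠ 0 ↔ G.Adj x w := by simp [nb]

/-- Rigid vertices. -/
def Rigid (G : SimpleGraph V) [DecidableRel G.Adj] (w : V) (f : V → V → ZMod 2) (x : V) : Prop :=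
  ¬ G.Adj x w ∨ bd f x + nb G w x = 1

open Classical in
/-- Indicator of being covered. -/
noncomputable def cov (f : V → V → ZMod 2) (x : V) : ZMod 2 := if ∃ y, f x y ≠ 0 then 1 else 0

theorem assemble {w : V} {f : V → V → ZMod 2}
    (hf : Sup (fun x y => G.Adj x y ∧ x ≠ w ∧ y ≠ w) f) (hw : (G.degree w : ZMod 2) = 0)
    (hC : ∀ x, x ≠ w → (G.degree x : ZMod 2) + (bd f x + nb G w x) = 1 ∨
      ∀ y, G.Adj x y → y = w ∨ f x y ≠ 0)
    (hPP : PP fun x y => f x y ≠ 0 ∧ Rigid G w f x ∧ Rigid G w f y)
    (hpar : (∃ B : V → ZMod 2, (∀ x y, f x y ≠ 0 → Rigid G w f x → Rigid G w f y → B x = B y) ∧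
        ∑ x, (bd f x + nb G w x) * B x = 1) ∨
      ((∀ x, bd f x + nb G w x = 0) ∧ ∑ x, cov f x = 1)) : Col G := by
  classical
  have hfw : ∀ x, f x w = 0 := fun x => by
    by_contra h
    exact (hf.sup _ _ h).2.2 rfl
  have hwf : ∀ x, f w x = 0 := fun x => by rw [hf.symm, hfw]
  have hbw : bd f w = 0 := by simp [bd, hwf]
  set o : V → ZMod 2 := fun x => bd f x + nb G w x with ho
  have how : o w = 0 := by simp [ho, hbw, nb_self]
  have hδ : ∀ x, ∃ y, (∃ z, f x z ≠ 0) → f x y ≠ 0 := fun x => by
    by_cases h : ∃ z, f x z ≠ 0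
    · exact h.imp fun z hz _ => hz
    · exact ⟨x, fun h' => (h h').elim⟩
  choose δ hδ using hδ
  let d : V → V → ZMod 2 := fun x y => if δ x = y then 1 + o x else 0
  obtain ⟨β, hβ, hsum⟩ : ∃ β : V → ZMod 2,
      (∀ x y, f x y ≠ 0 → Rigid G w f x → Rigid G w f y → β x + d x y = β y + d y x) ∧
      ∑ x, (o x * β x + (1 + o x) * cov f x) = 1 := by
    obtain ⟨β, hβ⟩ := hPP (fun x y => d x y + d y x) fun x y => add_comm _ _
    have h1 : ∀ x y, f x y ≠ 0 → Rigid G w f x → Rigid G w f y → β x + d x y = β y + d y x :=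
      fun x y h1 h2 h3 => by
        have := hβ x y ⟨h1, h2, h3⟩
        revert this
        generalize β x = a, β y = b, d x y = c, d y x = e
        revert a b c e
        decide
    rcases hpar with ⟨B, hB, hB1⟩ | ⟨h2, h3⟩
    · rcases z2 (∑ x, (o x * β x + (1 + o x) * cov f x)) with h | h
      · refine ⟨fun x => β x + B x, fun x y e1 e2 e3 => ?_, ?_⟩
        · rw [add_right_comm, h1 x y e1 e2 e3, hB x y e1 e2 e3, add_right_comm]
        · refine Eq.trans ?_ hB1
          rw [← zero_add (∑ x, o x * B x), ← h, ← sum_add_distrib]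
          exact sum_congr rfl fun x _ => by ring
      · exact ⟨β, h1, h⟩
    · refine ⟨β, h1, ?_⟩
      refine Eq.trans ?_ h3
      exact sum_congr rfl fun x _ => by rw [show o x = 0 from h2 x]; ring
  let α₀ : V → V → ZMod 2 := fun x y => f x y *
    if Rigid G w f x then β x + d x y else if Rigid G w f y then β y + d y x else 0
  have hα₀ : Sup (fun x y => f x y ≠ 0) α₀ := by
    refine ⟨fun x y => ?_, fun x y h h' => h (by simp [α₀, h'])⟩
    by_cases h : f x y = 0
    · simp [α₀, h, ← hf.symm x y]
    · by_cases hx : Rigid G w f x <;> by_cases hy : Rigid G w f y <;>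
        simp only [α₀, hx, hy, if_true, if_false, hf.symm y x]
      rw [hβ x y h hx hy]
  let ω : V → ZMod 2 := fun x => nb G w x * if o x = 1 then β x else 1 + bd α₀ x
  have hωw : ω w = 0 := by simp [ω, nb_self]
  set h : V → V → ZMod 2 := fun x y => f x y + star w (nb G w) x y with hh
  set α : V → V → ZMod 2 := fun x y => α₀ x y + star w ω x y with hα
  have hα₀w : ∀ x, α₀ x w = 0 := fun x => by simp [α₀, hfw]
  have hbh : ∀ x, x ≠ w → bd h x = o x := fun x hx => by rw [hh, bd_add, bd_star _ hx]
  have hbα : ∀ x, x ≠ w → bd α x = bd α₀ x + ω x := fun x hx => by rw [hα, bd_add, bd_star _ hx]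
  have hsα : Sup (fun x y => h x y ≠ 0) α := by
    refine ⟨fun x y => by simp only [hα, hα₀.symm x y, star_symm w ω x y], fun x y e => ?_⟩
    by_cases hx : x = w
    · subst hx
      simp only [hα, hh, star_self hωw, star_self (nb_self (G := G) x), hwf, zero_add,
        hα₀.symm x, hα₀w] at e ⊢
      exact left_ne_zero_of_mul e
    · by_cases hy : y = w
      · subst hy
        simp only [hα, hh, star_of_ne _ hx, if_true, hfw, hα₀w, zero_add] at e ⊢
        exact left_ne_zero_of_mul e
      · simp only [hα, hh, star_of_ne _ hx, hy, if_false, add_zero] at e ⊢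
        exact hα₀.sup x y e
  have hsh : Sup G.Adj h := by
    refine (hf.mono fun x y e => e.1).add ⟨star_symm _ _, fun x y e => ?_⟩
    by_cases hx : x = w
    · subst hx
      rw [star_self (nb_self x)] at e
      exact (nb_ne.mp e).symm
    · rw [star_of_ne _ hx] at e
      by_cases hy : y = w
      · rw [if_pos hy] at e
        exact hy ▸ nb_ne.mp e
      · exact (e (if_neg hy)).elim
  -- monochromatic vertices
  have m1 : ∀ x, o x = 1 → ∀ y, α x y = h x y * β x := fun x hx y => by
    have hxw : x ≠ w := fun e => by rw [e, how] at hx; exact zero_ne_one hx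
    have hr : Rigid G w f x := Or.inr hx
    simp only [hα, hh, α₀, ω, d, star_of_ne _ hxw, hr, hx, if_true, z2_add_self, ite_self, add_zero]
    by_cases hy : y = w <;> simp [hy, add_mul]
  have m2 : ∀ x, x ≠ w → bd α x = o x * β x + (1 + o x) * cov f x := fun x hxw => by
    rcases z2 (o x) with hx | hx
    · rw [hx, hbα x hxw, zero_mul, zero_add, add_zero, one_mul]
      by_cases hn : G.Adj x w
      · have e : bd f x = 1 := by
          have : bd f x + 1 = 0 := by simpa [ho, nb, hn] using hx
          revert this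
          generalize bd f x = a
          revert a
          decide
        have e' : ∃ y, f x y ≠ 0 := by
          obtain ⟨y, -, hy⟩ := exists_ne_zero_of_sum_ne_zero (s := univ) (f := f x)
            (z2_ne.mpr e)
          exact ⟨y, hy⟩
        simp only [ω, nb, hn, hx, if_true, zero_ne_one, if_false, one_mul, cov, e']
        rw [add_left_comm, z2_add_self, add_zero]
      · have hr : Rigid G w f x := Or.inl hn
        have e : bd f x = 0 := by simpa [ho, nb, hn] using hx
        simp only [ω, nb, hn, if_false, zero_mul, add_zero, bd, α₀, hr, if_true, mul_add,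
          sum_add_distrib, ← sum_mul, d, hx, mul_ite, mul_one, mul_zero, sum_ite_eq, mem_univ,
          ite_self]
        rw [show ∑ y, f x y = 0 from e, zero_mul, zero_add, cov]
        split_ifs with e'
        · exact z2_ne.mp (hδ x e')
        · by_contra e''
          exact e' ⟨_, e''⟩
    · simp only [bd, m1 x hx, ← sum_mul]
      rw [show ∑ y, h x y = o x from hbh x hxw, hx, z2_add_self, zero_mul, add_zero]
  have m3 : bd α w = 1 := by
    have e := handshake hsα.symm fun x => by
      by_contra e
      exact (hsh.sup _ _ (hsα.sup _ _ e)).ne rfl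
    rw [← add_sum_erase _ _ (mem_univ w), sum_congr rfl fun x hx => m2 x (ne_of_mem_erase hx)] at e
    rw [← add_sum_erase _ _ (mem_univ w), how, cov, if_neg (by simp [hwf])] at hsum
    simp only [zero_mul, mul_zero, zero_add] at hsum
    rw [hsum] at e
    revert e
    generalize bd α w = a
    revert a
    decide
  have m4 : ∀ x, x ≠ w → o x = 0 → bd α x = 1 ∨ ∀ y, h x y = 0 := fun x hxw hx => by
    rw [m2 x hxw, hx, zero_mul, zero_add, add_zero, one_mul, cov]
    split_ifs with e
    · exact Or.inl rfl
    · right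
      push Not at e
      have : nb G w x = 0 := by simpa [ho, bd, e] using hx
      intro y
      simp [hh, e, star_of_ne _ hxw, this]
  have hbhw : bd h w = 0 := by rw [hh, bd_add, hbw, bd_star_self (nb_self w), sum_nb, hw, add_zero]
  refine col_of hsh hsα (fun x => ?_) (fun x => ?_) fun x => ?_
  · by_cases hx : x = w
    · subst hx
      refine Or.inr fun y hy => ?_
      simp only [hh, hwf, star_self (nb_self (G := G) x), zero_add]
      exact nb_ne.mpr hy.symm
    · rw [hbh x hx]
      refine (hC x hx).imp id fun e y hy => ?_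
      by_cases hyw : y = w
      · subst hyw
        simp only [hh, hfw, star_of_ne _ hx, if_true, zero_add]
        exact nb_ne.mpr hy
      · simpa [hh, star_of_ne _ hx, hyw] using e y hy
  · by_cases hx : x = w
    · exact Or.inl (hx ▸ m3)
    · rcases z2 (o x) with e | e
      · refine (m4 x hx e).imp id fun e' y => ?_
        by_contra e''
        exact hsα.sup _ _ e'' (e' y)
      · rcases z2 (β x) with e' | e'
        · exact Or.inr fun y => by rw [m1 x e, e', mul_zero]
        · left
          rw [m2 x hx, e, e', z2_add_self, zero_mul, add_zero, one_mul]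
  · by_cases hx : x = w
    · left
      rw [hx, hbhw, m3, zero_add]
    · rcases z2 (o x) with e | e
      · refine (m4 x hx e).imp (fun e' => by rw [hbh x hx, e, e', zero_add]) fun e' y => ?_
        rw [e' y]
        by_contra e''
        exact hsα.sup _ _ (Ne.symm e'') (e' y)
      · rcases z2 (β x) with e' | e'
        · left
          rw [hbh x hx, m2 x hx, e, e', z2_add_self, zero_mul, mul_zero, add_zero, add_zero]
        · exact Or.inr fun y => by rw [m1 x e, e', mul_one]

end Pool.Agent.P.MP_250062_co
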