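import Mathlib
import Pool.Agent.P.MP_250062_co.Assembly

open Finset Relation

namespace Pool.Agent.P.MP_250062_co

variable {V : Type*} [Fintype V] [DecidableEq V] {G : SimpleGraph V} [DecidableRel G.Adj]

omit [Fintype V] in
theorem PP.union {E₁ E₂ : V → V → Prop} (h₁ : PP E₁) (h₂ : PP E₂) (A : Finset V)
    (e₁ : ∀ x y, E₁ x y → x ∈ A ∧ y ∈ A) (e₂ : ∀ x y, E₂ x y → x ∉ A ∧ y ∉ A) :
    PP fun x y => E₁ x y ∨ E₂ x y := fun g hg => by
  obtain ⟨β₁, b₁⟩ := h₁ g hg
  obtain ⟨β₂, b₂⟩ := h₂ g hg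
  refine ⟨fun x => if x ∈ A then β₁ x else β₂ x, ?_⟩
  rintro x y (h | h)
  · simp only [(e₁ x y h).1, (e₁ x y h).2, if_true, b₁ x y h]
  · simp only [(e₂ x y h).1, (e₂ x y h).2, if_false, b₂ x y h]

omit [Fintype V] in
theorem PP.link {E : V → V → Prop} (h : PP E) (A : Finset V) (e : ∀ x y, E x y → (x ∈ A ↔ y ∈ A))
    {a b : V} (ha : a ∈ A) (hb : b ∉ A) :
    PP fun x y => E x y ∨ (x = a ∧ y = b) ∨ (x = b ∧ y = a) := fun g hg => by
  obtain ⟨β, hβ⟩ := h g hg
  have key : ∀ p q r : ZMod 2, p + (p + q + r) + q = r := by decide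
  refine ⟨fun x => if x ∈ A then β x + (β a + β b + g a b) else β x, ?_⟩
  rintro x y (h | ⟨rfl, rfl⟩ | ⟨rfl, rfl⟩)
  · by_cases hx : x ∈ A
    · simp only [hx, (e x y h).mp hx, if_true]
      rw [add_add_add_comm, z2_add_self, add_zero, hβ x y h]
    · simp only [hx, ← e x y h, if_false, hβ x y h]
  · simp only [ha, hb, if_true, if_false, key]
  · simp only [ha, hb, if_true, if_false]
    rw [add_comm, key, hg]

omit [Fintype V] [DecidableEq V] in
theorem Sup.smul {E : V → V → Prop} {f : V → V → ZMod 2} {c : ZMod 2} (hf : c ≠ 0 → Sup E f)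
    (hs : ∀ x y, f x y = f y x) : Sup E fun x y => c * f x y :=
  ⟨fun x y => by rw [hs], fun x y h =>
    (hf (left_ne_zero_of_mul h)).sup x y (right_ne_zero_of_mul h)⟩

omit [DecidableEq V] in
theorem bd_smul (c : ZMod 2) (f : V → V → ZMod 2) (x : V) :
    bd (fun x y => c * f x y) x = c * bd f x := (mul_sum _ _ _).symm

omit [Fintype V] [DecidableEq V] in
theorem ne_add {a b : ZMod 2} (h : a + b ≠ 0) : a ≠ 0 ∨ b ≠ 0 := by revert a b; decide

omit [DecidableEq V] [DecidableRel G.Adj] in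
theorem Sup.handshake {p : V → V → Prop} {f : V → V → ZMod 2}
    (hf : Sup (fun x y => G.Adj x y ∧ p x y) f) : ∑ x, bd f x = 0 :=
  MP_250062_co.handshake hf.symm fun x => by
    by_contra e
    exact (hf.sup _ _ e).1.ne rfl

omit [DecidableEq V] in
theorem Sup.bd_eq_zero {E : V → V → Prop} {f : V → V → ZMod 2} (hf : Sup E f) {x : V}
    (h : ∀ y, ¬ E x y) : bd f x = 0 :=
  sum_eq_zero fun y _ => by
    by_contra e
    exact h y (hf.sup _ _ e)

omit [DecidableEq V] in
theorem sum_degree : ∑ x, (G.degree x : ZMod 2) = 0 := by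
  rw [← Nat.cast_sum, G.sum_degrees_eq_twice_card_edges, Nat.cast_mul]
  exact mul_eq_zero_of_left rfl _

theorem case_even {w : V} (hw : (G.degree w : ZMod 2) = 0) (hn : (Fintype.card V : ZMod 2) = 1)
    {A B : Finset V} (hA : Conn G A) (hB : Conn G B) (hwA : w ∉ A) (hwB : w ∉ B)
    (hAB : ∀ x ∈ A, x ∉ B) (hall : ∀ x, x ≠ w → x ∉ A → x ∈ B) {t r : V} (ht : t ∈ A) (hr : r ∈ B)
    (h1 : ∑ x ∈ A, ((G.degree x : ZMod 2) + 1) = 1)
    (h2 : ∑ x ∈ A, nb G w x = 1 ∨ (G.Adj r t ∧ G.Adj r w ∧ (G.degree r : ZMod 2) = 1)) :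
    Col G := by
  set T : V → ZMod 2 := fun x => if x = w then 0 else nb G w x + (G.degree x + 1) with hT
  have hTs : ∑ x, T x = 0 := by
    have : ∀ x, T x = nb G w x + (G.degree x + 1) + if x = w then 1 else 0 := fun x => by
      by_cases hx : x = w
      · subst hx
        simp [hT, nb_self, hw, z2_add_self]
      · simp [hT, hx]
    simp [this, sum_add_distrib, sum_nb, hw, sum_degree, hn, z2_add_self]
  obtain ⟨f₁, s₁, p₁, b₁⟩ := exists_tjoin hA ht (fun x => if x ∈ A then T x else 0)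
    fun x hx => by by_contra e; exact hx (if_neg e)
  obtain ⟨f₂, s₂, p₂, b₂⟩ := exists_tjoin hB hr (fun x => if x ∈ B then T x else 0)
    fun x hx => by by_contra e; exact hx (if_neg e)
  set ε : ZMod 2 := ∑ x, if x ∈ A then T x else 0 with hε
  have hε' : ε ≠ 0 → G.Adj r t ∧ G.Adj r w ∧ (G.degree r : ZMod 2) = 1 := fun e => by
    refine h2.resolve_left fun h2 => e ?_
    rw [hε, sum_ite_mem, univ_inter, sum_congr rfl fun x hx => if_neg (ne_of_mem_of_not_mem hx hwA),
      sum_add_distrib, h1, h2, z2_add_self]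
  have hrw := ne_of_mem_of_not_mem hr hwB
  have htw := ne_of_mem_of_not_mem ht hwA
  have hf : Sup (fun x y => G.Adj x y ∧ x ≠ w ∧ y ≠ w)
      fun x y => f₁ x y + f₂ x y + ε * edge r t x y :=
    ((s₁.mono fun x y h => ⟨h.1, ne_of_mem_of_not_mem h.2.1 hwA, ne_of_mem_of_not_mem h.2.2 hwA⟩).add
      (s₂.mono fun x y h =>
        ⟨h.1, ne_of_mem_of_not_mem h.2.1 hwB, ne_of_mem_of_not_mem h.2.2 hwB⟩)).add
      (Sup.smul (fun e => sup_edge ⟨(hε' e).1, hrw, htw⟩ ⟨(hε' e).1.symm, htw, hrw⟩)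
        (edge_symm r t))
  have hb : ∀ x, bd (fun x y => f₁ x y + f₂ x y + ε * edge r t x y) x = T x := by
    refine eq_of_others r (fun x hx => ?_) (hf.handshake.trans hTs.symm)
    rw [bd_add, bd_add, bd_smul, bd_edge, b₁, b₂, if_neg hx, if_neg hx]
    have e : (if x ∈ A then T x else 0) + (if x ∈ B then T x else 0) = T x := by
      by_cases hxA : x ∈ A
      · simp [hxA, hAB x hxA]
      · by_cases hxw : x = w
        · simp [hxw, hT]
        · simp [hxA, hall x hxw hxA]
    by_cases hxt : x = t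
    · rw [if_pos hxt, if_pos hxt]
      linear_combination e + z2_add_self ε
    · rw [if_neg hxt, if_neg hxt]
      linear_combination e
  have ho : ∀ x, x ≠ w → bd (fun x y => f₁ x y + f₂ x y + ε * edge r t x y) x + nb G w x =
      G.degree x + 1 := fun x hx => by
    rw [hb, hT]
    simp only [hx, if_false]
    linear_combination z2_add_self (nb G w x)
  have hrig : ∀ x y, f₁ x y + f₂ x y + ε * edge r t x y ≠ 0 →
      Rigid G w (fun x y => f₁ x y + f₂ x y + ε * edge r t x y) x →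
      Rigid G w (fun x y => f₁ x y + f₂ x y + ε * edge r t x y) y → f₁ x y ≠ 0 ∨ f₂ x y ≠ 0 := by
    intro x y e hx hy
    refine ne_add ((ne_add e).resolve_right fun e' => ?_)
    obtain ⟨-, k1, k2⟩ := hε' (left_ne_zero_of_mul e')
    have : ¬ Rigid G w (fun x y => f₁ x y + f₂ x y + ε * edge r t x y) r := by
      rintro (h | h)
      · exact h k1
      · rw [ho r hrw, k2, z2_add_self] at h
        exact zero_ne_one h
    rcases edge_ne (right_ne_zero_of_mul e') with ⟨rfl, -⟩ | ⟨-, rfl⟩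
    exacts [this hx, this hy]
  refine assemble hf hw (fun x hx => Or.inl ?_) ((p₁.union p₂ A (fun x y h => (s₁.sup x y h).2)
    fun x y h => ⟨fun e => hAB x e (s₂.sup x y h).2.1, fun e => hAB y e (s₂.sup x y h).2.2⟩).mono
    fun x y h => hrig x y h.1 h.2.1 h.2.2) (Or.inl ⟨fun x => if x ∈ A then 1 else 0,
      fun x y e hx hy => ?_, ?_⟩)
  · rw [ho x hx, ← add_assoc, z2_add_self, zero_add]
  · rcases hrig x y e hx hy with h | h
    · simp only [(s₁.sup x y h).2.1, (s₁.sup x y h).2.2]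
    · exact (if_neg fun e => hAB x e (s₂.sup x y h).2.1).trans
        (if_neg fun e => hAB y e (s₂.sup x y h).2.2).symm
  · simp only [mul_ite, mul_one, mul_zero, sum_ite_mem, univ_inter]
    rw [sum_congr rfl fun x hx => ho x (ne_of_mem_of_not_mem hx hwA), h1]

theorem case_pair {w u v r : V} (hw : (G.degree w : ZMod 2) = 0)
    (hd : ∀ x, x ≠ w → (G.degree x : ZMod 2) = 1) (hD : Conn G (univ \ {w, u, v}))
    (hr : r ∈ (univ \ {w, u, v} : Finset V)) (huw : u ≠ w) (hvw : v ≠ w) (huv : u ≠ v)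
    (hadj : ¬ G.Adj u v) (hu : ∀ y, G.Adj u y → y = w ∨ G.Adj y w)
    (hv : ∀ y, G.Adj v y → y = w ∨ G.Adj y w) : Col G := by
  have m : ∀ x, x ∈ (univ \ {w, u, v} : Finset V) ↔ x ≠ w ∧ x ≠ u ∧ x ≠ v := by simp [not_or]
  obtain ⟨f₁, s₁, p₁, b₁⟩ := exists_tjoin hD hr
    (fun x => if x ∈ (univ \ {w, u, v} : Finset V) then nb G w x + nb G u x + nb G v x else 0)
    fun x hx => by by_contra e; exact hx (if_neg e)
  simp only [m] at s₁ b₁ hr
  let ω : V → V → ZMod 2 := fun a x => if x = w then 0 else nb G a x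
  have hω0 : ∀ a, ω a a = 0 := fun a => by simp [ω, nb_self]
  have hω : ∀ a, a ≠ w → Sup (fun x y => G.Adj x y ∧ x ≠ w ∧ y ≠ w ∧ (x = a ∨ y = a))
      (star a (ω a)) := fun a ha => by
    refine ⟨star_symm _ _, fun x y e => ?_⟩
    rcases ne_add e with e | e
    · obtain ⟨rfl, e⟩ := ite_ne_right_iff.mp e
      obtain ⟨e1, e2⟩ := ite_ne_left_iff.mp e
      exact ⟨nb_ne.mp e2.symm, e1, ha, Or.inr rfl⟩
    · obtain ⟨rfl, e⟩ := ite_ne_right_iff.mp e
      obtain ⟨e1, e2⟩ := ite_ne_left_iff.mp e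
      exact ⟨(nb_ne.mp e2.symm).symm, ha, e1, Or.inl rfl⟩
  have hωs : ∀ a, a ≠ w → bd (star a (ω a)) a = 1 + nb G w a := fun a ha => by
    have : ∀ y, ω a y = nb G a y + if y = w then nb G w a else 0 := fun y => by
      by_cases hy : y = w
      · simp [ω, hy, nb, G.adj_comm, z2_add_self]
      · simp [ω, hy]
    simp [bd_star_self (hω0 a), this, sum_add_distrib, sum_nb, hd a ha]
  set f : V → V → ZMod 2 := fun x y => f₁ x y + star u (ω u) x y + star v (ω v) x y with hf0
  have hf : Sup (fun x y => G.Adj x y ∧ x ≠ w ∧ y ≠ w) f :=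
    ((s₁.mono fun x y h => ⟨h.1, h.2.1.1, h.2.2.1⟩).add
      ((hω u huw).mono fun x y h => ⟨h.1, h.2.1, h.2.2.1⟩)).add
      ((hω v hvw).mono fun x y h => ⟨h.1, h.2.1, h.2.2.1⟩)
  have n1 : nb G u v = 0 := if_neg fun h => hadj h.symm
  have n2 : nb G v u = 0 := if_neg hadj
  have hb : ∀ x, bd f x = nb G w x + ((if x = u then 1 else 0) + if x = v then 1 else 0) := by
    refine eq_of_others r (fun x hx => ?_) (hf.handshake.trans (by
      simp [sum_add_distrib, sum_nb, hw, z2_add_self]))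
    rw [hf0, bd_add, bd_add, b₁, if_neg hx, add_zero]
    by_cases hxu : x = u
    · rw [hxu, hωs u huw, bd_star _ huv]
      simp [ω, huv, n2, add_comm]
    · by_cases hxv : x = v
      · rw [hxv, hωs v hvw, bd_star _ huv.symm]
        simp [ω, huv.symm, n1, add_comm]
      · rw [bd_star _ hxu, bd_star _ hxv]
        by_cases hxw : x = w
        · simp [ω, hxw, nb_self, huw.symm, hvw.symm]
        · simp only [ω, hxw, hxu, hxv, ne_eq, not_false_iff, and_self, if_true, if_false, add_zero]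
          linear_combination z2_add_self (nb G u x) + z2_add_self (nb G v x)
  have ho : ∀ x, bd f x + nb G w x = (if x = u then 1 else 0) + if x = v then 1 else 0 :=
    fun x => by rw [hb]; linear_combination z2_add_self (nb G w x)
  have hnr : ∀ a, a = u ∨ a = v → ∀ y, G.Adj a y → y ≠ w → ¬ Rigid G w f y := by
    rintro a ha y hy hyw (h | h)
    · rcases ha with rfl | rfl
      exacts [h ((hu y hy).resolve_left hyw), h ((hv y hy).resolve_left hyw)]
    · rw [ho, if_neg, if_neg, add_zero] at h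
      · exact zero_ne_one h
      · rintro rfl
        rcases ha with rfl | rfl
        exacts [hadj hy, hy.ne rfl]
      · rintro rfl
        rcases ha with rfl | rfl
        exacts [hy.ne rfl, hadj hy.symm]
  have hrig : ∀ x y, f x y ≠ 0 → Rigid G w f x → Rigid G w f y → f₁ x y ≠ 0 := by
    intro x y e hx hy
    have k : ∀ a, a = u ∨ a = v → star a (ω a) x y = 0 := fun a ha => by
      by_contra e'
      obtain ⟨e1, e2, e3, rfl | rfl⟩ := (hω a (by rintro rfl; tauto)).sup x y e'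
      exacts [hnr x ha y e1 e3 hy, hnr y ha x e1.symm e2 hx]
    simpa [hf0, k u (Or.inl rfl), k v (Or.inr rfl)] using e
  refine assemble hf hw (fun x hx => ?_) (p₁.mono fun x y h => hrig x y h.1 h.2.1 h.2.2)
    (Or.inl ⟨fun x => if x = v then 1 else 0, fun x y e hx hy => ?_, ?_⟩)
  · have k : ∀ y, (x = u ∨ x = v) → f₁ x y = 0 := fun y h => by
      by_contra e
      have := (s₁.sup x y e).2.1
      tauto
    by_cases hxu : x = u
    · refine Or.inr fun y hy => or_iff_not_imp_left.mpr fun hyw => ?_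
      have hyv : y ≠ v := fun e => hadj (by rw [← hxu, ← e]; exact hy)
      simp only [hf0, k y (Or.inl hxu)]
      subst hxu
      rw [star_self (hω0 x), star_of_ne _ huv]
      simpa [hyv, ω, hyw, nb] using hy.symm
    · by_cases hxv : x = v
      · refine Or.inr fun y hy => or_iff_not_imp_left.mpr fun hyw => ?_
        have hyu : y ≠ u := fun e => hadj (by rw [← hxv, ← e]; exact hy.symm)
        simp only [hf0, k y (Or.inr hxv)]
        subst hxv
        rw [star_self (hω0 x), star_of_ne _ hxu]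
        simpa [hyu, ω, hyw, nb] using hy.symm
      · left
        rw [ho, hd x hx, if_neg hxu, if_neg hxv, add_zero, add_zero]
  · have := s₁.sup x y (hrig x y e hx hy)
    exact (if_neg this.2.1.2.2).trans (if_neg this.2.2.2.2).symm
  · simp [ho, huv.symm]

end Pool.Agent.P.MP_250062_co
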