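import Mathlib
import Pool.Agent.P.MP_250062_co.Tools

open Finset Relation

namespace Pool.Agent.P.MP_250062_co

variable {V : Type*} [DecidableEq V] {G : SimpleGraph V}

theorem exists_move {A B : Finset V} (hA : Conn G A) {t : V} (ht : t ∈ A)
    (hZ : ∃ z ∈ A, z ≠ t ∧ ∃ y ∈ B, G.Adj z y) :
    ∃ z ∈ A, (∃ y ∈ B, G.Adj z y) ∧ ∃ A', z ∉ A' ∧ t ∈ A' ∧ A' ⊆ A ∧ Conn G A' ∧ Conn G (A \ A') ∧
      ∀ x ∈ A, x ∉ A' → x ≠ z → ∀ y, G.Adj x y → y ∉ B ∧ y ∉ A' := by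
  classical
  let P : V × Finset V → Prop := fun p => (∃ y ∈ B, G.Adj p.1 y) ∧ p.1 ∉ p.2 ∧ t ∈ p.2 ∧ Conn G p.2
  obtain ⟨⟨z, A'⟩, hp, hmax⟩ := exists_max_image ((A ×ˢ A.powerset).filter P) (fun p => #p.2) (by
    obtain ⟨z, hz, hzt, hy⟩ := hZ
    exact ⟨(z, {t}), mem_filter.mpr ⟨by simpa using ⟨hz, ht⟩, hy, by simpa using hzt,
      mem_singleton_self t, conn_singleton t⟩⟩)
  obtain ⟨h0, h1, h2, h3, h4⟩ := mem_filter.mp hp
  obtain ⟨hz, hA'⟩ : z ∈ A ∧ A' ⊆ A := by simpa using h0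
  dsimp only at h1 h2 h3 h4 hmax
  have key : ∀ z' ∈ A, (∃ y ∈ B, G.Adj z' y) → z' ∉ A' → ∀ a ∈ A', ∀ b ∈ A, b ≠ z' → G.Adj a b →
      b ∈ A' := fun z' hz' hy hzA a ha b hb hbz hab => by
    by_contra hbA
    have := hmax (z', insert b A') (mem_filter.mpr ⟨by
      simpa [insert_subset_iff] using ⟨hz', hb, hA'⟩, hy, by simp [hzA, hbz.symm],
      mem_insert_of_mem h3, h4.insert ha hab⟩)
    rw [card_insert_of_notMem hbA] at this
    omega
  have c1 := key z hz h1 h2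
  obtain ⟨a, ha, haz⟩ : ∃ a ∈ A', G.Adj a z := by
    by_contra hc
    push Not at hc
    refine h2 (hA A' hA' ⟨t, h3⟩ (fun x hx y hy hxy => c1 x hx y hy ?_ hxy) hz)
    rintro rfl
    exact hc x hx hxy
  refine ⟨z, hz, h1, A', h2, h3, hA', h4, fun X hX hne hc => ?_,
    fun x hx hxA hxz y hxy => ⟨fun hy => ?_, fun hy => hxA (c1 y hy x hx hxz hxy.symm)⟩⟩
  · by_cases hzX : z ∈ X
    · have := hA (X ∪ A') (union_subset (hX.trans sdiff_subset) hA') (hne.mono subset_union_left)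
        fun x hx y hy hxy => by
          by_cases hyA : y ∈ A'
          · exact mem_union_right _ hyA
          · rcases mem_union.mp hx with hx | hx
            · exact mem_union_left _ (hc x hx y (mem_sdiff.mpr ⟨hy, hyA⟩) hxy)
            · by_cases hyz : y = z
              · exact mem_union_left _ (hyz ▸ hzX)
              · exact (hyA (c1 x hx y hy hyz hxy)).elim
      intro x hx
      exact (mem_union.mp (this (mem_sdiff.mp hx).1)).resolve_right (mem_sdiff.mp hx).2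
    · refine (hzX (hA X (hX.trans sdiff_subset) hne (fun x hx y hy hxy => ?_) hz)).elim
      have hx' := mem_sdiff.mp (hX hx)
      refine hc x hx y (mem_sdiff.mpr ⟨hy, fun hyA => hx'.2 ?_⟩) hxy
      exact c1 y hyA x hx'.1 (ne_of_mem_of_not_mem hx hzX) hxy.symm
  · exact h2 (key x hx ⟨y, hy, hxy⟩ hxA a ha z hz hxz.symm haz)

theorem exists_split {W : Finset V} {r t : V} (hr : r ∈ W) (ht : t ∈ W.erase r)
    (hc : Conn G (W.erase r)) (P : Finset V → Prop) (hP : P (W.erase r)) :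
    ∃ A, t ∈ A ∧ A ⊆ W.erase r ∧ Conn G A ∧ Conn G (W \ A) ∧ P A ∧
      ((∀ z ∈ A, z ≠ t → ∀ y ∈ W, G.Adj z y → y ∈ A) ∨
      ∃ z ∈ A, ∃ A', z ∉ A' ∧ t ∈ A' ∧ A' ⊆ A ∧ Conn G A' ∧ Conn G (W \ A') ∧ ¬ P A' ∧
        ∀ x ∈ A, x ∉ A' → x ≠ z → ∀ y ∈ W, G.Adj x y → y ∈ A ∧ y ∉ A') := by
  classical
  let Q : Finset V → Prop := fun A => t ∈ A ∧ Conn G A ∧ Conn G (W \ A) ∧ P A
  obtain ⟨A, hA, hmin⟩ := exists_min_image ((W.erase r).powerset.filter Q) card ⟨W.erase r,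
    mem_filter.mpr ⟨mem_powerset_self _, ht, hc, by
      rw [sdiff_erase_self hr]
      exact conn_singleton r, hP⟩⟩
  obtain ⟨h0, h1, h2, h3, h4⟩ := mem_filter.mp hA
  rw [mem_powerset] at h0
  refine ⟨A, h1, h0, h2, h3, h4, ?_⟩
  by_cases hZ : ∃ z ∈ A, z ≠ t ∧ ∃ y ∈ W \ A, G.Adj z y
  · obtain ⟨z, hz, ⟨y, hy, hzy⟩, A', e1, e2, e3, e4, e5, e6⟩ := exists_move h2 h1 hZ
    have e7 : Conn G (W \ A') := by
      have := e5.union h3 (mem_sdiff.mpr ⟨hz, e1⟩) hy hzy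
      rwa [union_comm, sdiff_union_sdiff_cancel (h0.trans (erase_subset _ _)) e3] at this
    refine Or.inr ⟨z, hz, A', e1, e2, e3, e4, e7, fun hP' => ?_, fun x hx hx' hxz y hy hxy => ?_⟩
    · have := hmin A' (mem_filter.mpr ⟨mem_powerset.mpr (e3.trans h0), e2, e4, e7, hP'⟩)
      exact absurd (card_lt_card ⟨e3, fun h => e1 (h hz)⟩) (not_lt.mpr this)
    · have := e6 x hx hx' hxz y hxy
      exact ⟨by_contra fun h => this.1 (mem_sdiff.mpr ⟨hy, h⟩), this.2⟩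
  · refine Or.inl fun z hz hzt y hy hzy => by_contra fun h => hZ ⟨z, hz, hzt, y, ?_, hzy⟩
    exact mem_sdiff.mpr ⟨hy, h⟩

/-- A separation of `G - w`. -/
structure Sep (G : SimpleGraph V) (w : V) (X S Y : Finset V) : Prop where
  neX : X.Nonempty
  neY : Y.Nonempty
  xs : ∀ v ∈ X, v ∉ S
  ys : ∀ v ∈ Y, v ∉ S
  xw : w ∉ X
  yw : w ∉ Y
  xy : ∀ v ∈ X, v ∉ Y
  all : ∀ v, v ∈ X ∨ v ∈ Y ∨ v ∈ S ∨ v = w
  adj : ∀ x ∈ X, ∀ y ∈ Y, ¬ G.Adj x y

omit [DecidableEq V] in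
theorem Sep.symm {w : V} {X S Y : Finset V} (h : Sep G w X S Y) : Sep G w Y S X :=
  ⟨h.neY, h.neX, h.ys, h.xs, h.yw, h.xw, fun v hv hv' => h.xy v hv' hv,
    fun v => by have := h.all v; tauto, fun x hx y hy hxy => h.adj y hy x hx hxy.symm⟩

omit [DecidableEq V] in
theorem Sep.closed {w : V} {X S Y : Finset V} (h : Sep G w X S Y) {x y : V} (hx : x ∈ X)
    (hxy : G.Adj x y) : y ∈ X ∨ y ∈ S ∨ y = w := by
  have := h.all y
  have := fun hy => h.adj x hx y hy hxy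
  tauto

variable [Fintype V]

theorem exists_sep {w : V} {X S : Finset V} (hX : X.Nonempty) (xs : ∀ v ∈ X, v ∉ S) (xw : w ∉ X)
    (hc : ∀ x ∈ X, ∀ y, G.Adj x y → y ∈ X ∨ y ∈ S ∨ y = w) {y : V} (h1 : y ∉ X) (h2 : y ∉ S)
    (h3 : y ≠ w) : ∃ Y, Sep G w X S Y := by
  refine ⟨univ \ (X ∪ S ∪ {w}), hX, ⟨y, by simp [h1, h2, h3]⟩, xs, fun v hv => ?_, xw, by simp,
    fun v hv => by simp [hv], fun v => ?_, fun x hx y hy hxy => ?_⟩
  · simp only [mem_sdiff, mem_union, not_or] at hv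
    exact hv.2.1.2
  · simp only [mem_sdiff, mem_union, mem_univ, mem_singleton]
    tauto
  · simp only [mem_sdiff, mem_union, mem_univ, mem_singleton] at hy
    have := hc x hx y hxy
    tauto

theorem Sep.two_le (h3 : ∀ S : Finset V, #S ≤ 2 → Conn G (univ \ S)) {w : V} {X S Y : Finset V}
    (h : Sep G w X S Y) : 2 ≤ #S := by
  by_contra hc
  obtain ⟨y, hy⟩ := h.neY
  have := h3 (insert w S) ((card_insert_le _ _).trans (by omega)) X (fun x hx => by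
    simp [h.xs x hx, ne_of_mem_of_not_mem hx h.xw]) h.neX (fun x hx v hv hxv => by
      have := h.closed hx hxv
      simp only [mem_sdiff, mem_insert] at hv
      tauto)
  exact h.xy y (this (by simp [h.ys y hy, ne_of_mem_of_not_mem hy h.yw])) hy

theorem Sep.exists_adj (h3 : ∀ S : Finset V, #S ≤ 2 → Conn G (univ \ S)) {w : V}
    {X S Y : Finset V} (h : Sep G w X S Y) (hS : #S ≤ 2) : ∃ x ∈ X, G.Adj x w := by
  by_contra hc
  push Not at hc
  obtain ⟨y, hy⟩ := h.neY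
  have := h3 S hS X (fun x hx => by simp [h.xs x hx]) h.neX (fun x hx v hv hxv => by
      rcases h.closed hx hxv with e | e | e
      · exact e
      · exact ((mem_sdiff.mp hv).2 e).elim
      · exact (hc x hx (e ▸ hxv)).elim)
  exact h.xy y (this (by simp [h.ys y hy])) hy

variable [DecidableRel G.Adj]

theorem Sep.three_le {w : V} (hd : ∀ x, x ≠ w → 5 ≤ G.degree x) {X S Y : Finset V}
    (h : Sep G w X S Y) (hS : #S ≤ 2) : 3 ≤ #X := by
  obtain ⟨x, hx⟩ := h.neX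
  have h1 := hd x (ne_of_mem_of_not_mem hx h.xw)
  have h2 : G.neighborFinset x ⊆ insert w (X.erase x ∪ S) := fun y hy => by
    rw [SimpleGraph.mem_neighborFinset] at hy
    have := h.closed hx hy
    have := hy.ne'
    simp only [mem_insert, mem_union, mem_erase]
    tauto
  have h4 := (card_le_card h2).trans ((card_insert_le _ _).trans
    (Nat.add_le_add_right (card_union_le _ _) 1))
  rw [SimpleGraph.card_neighborFinset_eq_degree, card_erase_of_mem hx] at h4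
  omega

omit [DecidableRel G.Adj] in
theorem corner (h3 : ∀ S : Finset V, #S ≤ 2 → Conn G (univ \ S)) {w : V}
    {X S Y X' S' Y' : Finset V} (h : Sep G w X S Y) (hS : #S ≤ 2) (h' : Sep G w X' S' Y')
    (hS' : #S' ≤ 2) (hmin : ∀ X₁ S₁ Y₁, Sep G w X₁ S₁ Y₁ → #S₁ ≤ 2 → X₁ ⊆ X → X ⊆ X₁) {s : V}
    (hs : s ∈ X) (hs' : s ∈ S') {a : V} (ha : a ∈ X) (ha' : a ∈ X') {b : V} (hb : b ∈ Y) :
    b ∉ Y' := by
  intro hb'
  have m1 : ∀ v, v ∈ S \ Y' ∪ S' ∩ X ↔ v ∈ S ∧ v ∉ Y' ∨ v ∈ S' ∧ v ∈ X := by simp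
  have m2 : ∀ v, v ∈ S ∩ Y' ∪ S' \ X ↔ v ∈ S ∧ v ∈ Y' ∨ v ∈ S' ∧ v ∉ X := by simp
  obtain ⟨Y₁, e1⟩ := exists_sep (G := G) (w := w) (X := X ∩ X') (S := S \ Y' ∪ S' ∩ X)
    ⟨a, mem_inter.mpr ⟨ha, ha'⟩⟩ (fun v hv => by
      rw [m1, mem_inter] at *
      have := h.xs v hv.1
      have := h'.xs v hv.2
      tauto) (by simp [h.xw]) (fun x hx y hxy => by
      rw [m1, mem_inter] at *
      have := h.closed hx.1 hxy
      have := h'.closed hx.2 hxy
      have := h'.adj x hx.2 y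
      tauto) (y := b) (by simp [h.symm.xy b hb]) (by
      rw [m1]
      have := h.ys b hb
      have := h.symm.xy b hb
      tauto) (ne_of_mem_of_not_mem hb h.yw)
  obtain ⟨Y₂, e2⟩ := exists_sep (G := G) (w := w) (X := Y ∩ Y') (S := S ∩ Y' ∪ S' \ X)
    ⟨b, mem_inter.mpr ⟨hb, hb'⟩⟩ (fun v hv => by
      rw [m2, mem_inter] at *
      have := h.ys v hv.1
      have := h'.ys v hv.2
      tauto) (by simp [h.yw]) (fun x hx y hxy => by
      rw [m2, mem_inter] at *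
      have := h.symm.closed hx.1 hxy
      have := h'.symm.closed hx.2 hxy
      have := h.symm.adj x hx.1 y
      tauto) (y := a) (by simp [h.xy a ha]) (by
      rw [m2]
      have := h.xs a ha
      have := h'.xs a ha'
      tauto) (ne_of_mem_of_not_mem ha h.xw)
  have c2 := e2.two_le h3
  have c1 : 2 < #(S \ Y' ∪ S' ∩ X) := by
    by_contra hc
    exact h'.xs s (mem_inter.mp (hmin _ _ _ e1 (not_lt.mp hc) inter_subset_left hs)).2 hs'
  have := card_union_le (S \ Y') (S' ∩ X)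
  have := card_union_le (S ∩ Y') (S' \ X)
  have := card_sdiff_add_card_inter S Y'
  have := card_sdiff_add_card_inter S' X
  omega

/-- `s` lies in no 2-separator of `G - w`. -/
def Uncut (G : SimpleGraph V) (w s : V) : Prop :=
  ∀ X S Y, Sep G w X S Y → #S ≤ 2 → s ∉ S

theorem uncut_of_min (h3 : ∀ S : Finset V, #S ≤ 2 → Conn G (univ \ S)) {w : V}
    (hd : ∀ x, x ≠ w → 5 ≤ G.degree x) {X S Y : Finset V} (h : Sep G w X S Y) (hS : #S ≤ 2)
    (hmin : ∀ X₁ S₁ Y₁, Sep G w X₁ S₁ Y₁ → #S₁ ≤ 2 → X₁ ⊆ X → X ⊆ X₁) {s : V} (hs : s ∈ X) :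
    Uncut G w s := by
  intro X' S' Y' h' hS' hs'
  have k1 := fun a ha ha' b hb => corner h3 h hS h' hS' hmin hs hs' (a := a) ha ha' (b := b) hb
  have k2 := fun a ha ha' b hb =>
    corner h3 h hS h'.symm hS' hmin hs hs' (a := a) ha ha' (b := b) hb
  have small : ∀ {A B : Finset V}, 3 ≤ #A → #B ≤ 2 → ∃ v ∈ A, v ∉ B := fun hA hB =>
    exists_mem_notMem_of_card_lt_card (by omega)
  obtain ⟨x, hx, hx'⟩ := small (h.three_le hd hS) hS'
  obtain ⟨y, hy, hy'⟩ := small (h.symm.three_le hd hS) hS'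
  obtain ⟨a, ha, ha'⟩ := small (h'.three_le hd hS') hS
  obtain ⟨b, hb, hb'⟩ := small (h'.symm.three_le hd hS') hS
  have e1 := h'.all x
  have e2 := h'.all y
  have e3 := h.all a
  have e4 := h.all b
  have f1 := ne_of_mem_of_not_mem hx h.xw
  have f2 := ne_of_mem_of_not_mem hy h.yw
  have f3 := ne_of_mem_of_not_mem ha h'.xw
  have f4 := ne_of_mem_of_not_mem hb h'.yw
  simp only [hx', hy', ha', hb', f1, f2, f3, f4, or_false] at e1 e2 e3 e4
  rcases e1 with e1 | e1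
  · exact k2 b (e4.resolve_right fun e => k1 x hx e1 b e hb) hb y hy
      (e2.resolve_right (k1 x hx e1 y hy))
  · exact k1 a (e3.resolve_right fun e => k2 x hx e1 a e ha) ha y hy
      (e2.resolve_left (k2 x hx e1 y hy))

omit [DecidableRel G.Adj] [DecidableEq V] [Fintype V] in
theorem exists_min {w : V} {X S Y : Finset V} (h : Sep G w X S Y) (hS : #S ≤ 2) :
    ∃ X₀ S₀ Y₀, X₀ ⊆ X ∧ Sep G w X₀ S₀ Y₀ ∧ #S₀ ≤ 2 ∧
      ∀ X₁ S₁ Y₁, Sep G w X₁ S₁ Y₁ → #S₁ ≤ 2 → X₁ ⊆ X₀ → X₀ ⊆ X₁ := by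
  classical
  obtain ⟨X₀, h0, hmin⟩ := exists_min_image
    (X.powerset.filter fun X₀ => ∃ S₀ Y₀, Sep G w X₀ S₀ Y₀ ∧ #S₀ ≤ 2) card
    ⟨X, mem_filter.mpr ⟨mem_powerset_self _, S, Y, h, hS⟩⟩
  obtain ⟨h1, S₀, Y₀, h2, h3⟩ := mem_filter.mp h0
  rw [mem_powerset] at h1
  exact ⟨X₀, S₀, Y₀, h1, h2, h3, fun X₁ S₁ Y₁ e1 e2 e3 => (eq_of_subset_of_card_le e3
    (hmin X₁ (mem_filter.mpr ⟨mem_powerset.mpr (e3.trans h1), S₁, Y₁, e1, e2⟩))).ge⟩

omit [DecidableRel G.Adj] in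
theorem Uncut.conn {w s : V} (h : Uncut G w s) (v : V) : Conn G (univ \ {w, s, v}) := by
  intro X hX hne hc y hy
  by_contra hyX
  have m : ∀ x, x ∈ (univ \ {w, s, v} : Finset V) ↔ x ≠ w ∧ x ≠ s ∧ x ≠ v := by simp [not_or]
  rw [m] at hy
  obtain ⟨Y, hY⟩ := exists_sep (G := G) (w := w) (S := {s, v}) hne (fun x hx => by
    have := (m x).mp (hX hx)
    simp [this]) (fun hw => ((m w).mp (hX hw)).1 rfl) (fun x hx z hxz => by
      have := fun e => hc x hx z ((m z).mpr e) hxz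
      simp only [mem_insert, mem_singleton]
      tauto) hyX (by simp [hy]) hy.1
  exact h X _ Y hY card_le_two (by simp)

end Pool.Agent.P.MP_250062_co
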