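import Mathlib
import Pool.Agent.P.MP_250062_co.Cases

open Finset Relation

namespace Pool.Agent.P.MP_250062_co

variable {V : Type*} [Fintype V] [DecidableEq V] {G : SimpleGraph V} [DecidableRel G.Adj]

omit [DecidableEq V] in
theorem cov_congr {f g : V → V → ZMod 2} {x : V} (h : ∀ y, f x y = g x y) : cov f x = cov g x := by
  simp only [cov, h]

omit [Fintype V] in
theorem edge_eq_zero {a b x : V} (ha : x ≠ a) (hb : x ≠ b) (y : V) : edge a b x y = 0 := by
  simp [edge, ha, hb]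

theorem toggle {w u s q₁ q₂ : V} {A₁ A₂ : Finset V} (hw : (G.degree w : ZMod 2) = 0)
    (hd : ∀ x, x ≠ w → (G.degree x : ZMod 2) = 1) (hu : ¬ G.Adj u w) (huw : u ≠ w)
    (hs : G.Adj s w) (hus : G.Adj u s) (c₁ : Conn G (insert s A₁)) (c₂ : Conn G (insert s A₂))
    (m₁ : q₁ ∈ A₁) (m₂ : q₂ ∈ A₂) (a₁ : G.Adj q₁ u) (a₂ : G.Adj q₂ u)
    (n₁ : ∀ x ∈ A₁, x ≠ w ∧ x ≠ u ∧ x ≠ s ∧ x ∉ A₂) (n₂ : ∀ x ∈ A₂, x ≠ w ∧ x ≠ u ∧ x ≠ s)
    (hall : ∀ x, x ≠ w → x ≠ u → x ≠ s → x ∉ A₁ → x ∈ A₂) : Col G := by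
  have side : ∀ (A : Finset V) (q : V), Conn G (insert s A) → q ∈ A → ∀ i : ZMod 2,
      ∃ f, Sup (fun x y => G.Adj x y ∧ x ∈ insert s A ∧ y ∈ insert s A) f ∧
        PP (fun x y => f x y ≠ 0) ∧ ∀ z, z ≠ s →
        bd f z = (if z ∈ A then nb G w z else 0) + i * if z = q then 1 else 0 := by
    intro A q hc hq i
    obtain ⟨f, h1, h2, h3⟩ := exists_tjoin hc (mem_insert_self s A)
      (fun z => (if z ∈ A then nb G w z else 0) + i * if z = q then 1 else 0) fun z hz => by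
        by_contra e
        have e1 : z ∉ A := fun h => e (mem_insert_of_mem h)
        exact hz (by simp [e1, ne_of_mem_of_not_mem hq e1 |>.symm])
    exact ⟨f, h1, h2, fun z hz => by rw [h3, if_neg hz, add_zero]⟩
  choose f₁ s₁ p₁ b₁ using side A₁ q₁ c₁ m₁
  choose f₂ s₂ p₂ b₂ using side A₂ q₂ c₂ m₂
  obtain ⟨i, j, hij⟩ := (by decide : ∀ a b : ZMod 2 → ZMod 2, ∃ i j,
      a i + b j + 1 + (if i ≠ 0 ∨ j ≠ 0 then 1 else 0) = 1)
    (fun i => ∑ x ∈ A₁, cov (fun x y => f₁ i x y + i * edge q₁ u x y) x)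
    (fun j => ∑ x ∈ A₂, cov (fun x y => f₂ j x y + j * edge q₂ u x y) x)
  have hsw := hs.ne
  have hsu := hus.ne'
  have z₁ : ∀ x, x ≠ s → x ∉ A₁ → ∀ y, f₁ i x y = 0 := fun x h1 h2 y => by
    by_contra e
    exact (mem_insert.mp ((s₁ i).sup x y e).2.1).elim h1 h2
  have z₂ : ∀ x, x ≠ s → x ∉ A₂ → ∀ y, f₂ j x y = 0 := fun x h1 h2 y => by
    by_contra e
    exact (mem_insert.mp ((s₂ j).sup x y e).2.1).elim h1 h2
  have w₁ : ∀ x ∈ insert s A₁, x ≠ w := fun x hx =>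
    (mem_insert.mp hx).elim (fun e => e ▸ hsw) fun e => (n₁ x e).1
  have w₂ : ∀ x ∈ insert s A₂, x ≠ w := fun x hx =>
    (mem_insert.mp hx).elim (fun e => e ▸ hsw) fun e => (n₂ x e).1
  have u₁ : u ∉ A₁ := fun h => (n₁ u h).2.1 rfl
  have u₂ : u ∉ A₂ := fun h => (n₂ u h).2.1 rfl
  have q₁₂ : q₁ ≠ q₂ := fun h => (n₁ q₁ m₁).2.2.2 (h ▸ m₂)
  set f : V → V → ZMod 2 := fun x y => f₁ i x y + i * edge q₁ u x y +
    (f₂ j x y + j * edge q₂ u x y) + (i + j) * edge u s x y with hf0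
  have hf : Sup (fun x y => G.Adj x y ∧ x ≠ w ∧ y ≠ w) f :=
    ((((s₁ i).mono fun x y h => ⟨h.1, w₁ x h.2.1, w₁ y h.2.2⟩).add
      (Sup.smul (fun _ => sup_edge ⟨a₁, (n₁ _ m₁).1, huw⟩ ⟨a₁.symm, huw, (n₁ _ m₁).1⟩)
        (edge_symm _ _))).add
      (((s₂ j).mono fun x y h => ⟨h.1, w₂ x h.2.1, w₂ y h.2.2⟩).add
      (Sup.smul (fun _ => sup_edge ⟨a₂, (n₂ _ m₂).1, huw⟩ ⟨a₂.symm, huw, (n₂ _ m₂).1⟩)
        (edge_symm _ _)))).add
      (Sup.smul (fun _ => sup_edge ⟨hus, huw, hsw⟩ ⟨hus.symm, hsw, huw⟩) (edge_symm _ _))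
  have hb : ∀ x, bd f x = nb G w x := by
    refine eq_of_others s (fun x hx => ?_) (hf.handshake.trans (by rw [sum_nb, hw]))
    rw [hf0, bd_add, bd_add, bd_add, bd_add, bd_smul, bd_smul, bd_smul, bd_edge, bd_edge, bd_edge,
      b₁ i x hx, b₂ j x hx, if_neg hx]
    have e : (if x ∈ A₁ then nb G w x else 0) + (if x ∈ A₂ then nb G w x else 0) = nb G w x := by
      by_cases h1 : x ∈ A₁
      · simp [h1, (n₁ x h1).2.2.2]
      · by_cases h2 : x = w
        · simp [h2, nb_self]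
        · by_cases h3 : x = u
          · simp [h3, nb, hu]
          · simp [h1, hall x h2 h3 hx h1]
    linear_combination e + z2_add_self (i * if x = q₁ then 1 else 0) +
      z2_add_self (j * if x = q₂ then 1 else 0) + z2_add_self ((i + j) * if x = u then 1 else 0)
  have ho : ∀ x, bd f x + nb G w x = 0 := fun x => by rw [hb, z2_add_self]
  have hrs : ∀ x, Rigid G w f x → x ≠ s := by
    rintro x (h | h) rfl
    · exact h hs
    · rw [ho] at h
      exact zero_ne_one h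
  refine assemble hf hw (fun x hx => Or.inl (by rw [ho, hd x hx, add_zero])) ?_ (Or.inr ⟨ho, ?_⟩)
  · have k₁ : ∀ x y, f₁ i x y ≠ 0 ∧ x ≠ s ∧ y ≠ s → x ∈ A₁ ∧ y ∈ A₁ := fun x y h =>
      ⟨(mem_insert.mp ((s₁ i).sup x y h.1).2.1).resolve_left h.2.1,
        (mem_insert.mp ((s₁ i).sup x y h.1).2.2).resolve_left h.2.2⟩
    have k₂ : ∀ x y, f₂ j x y ≠ 0 ∧ x ≠ s ∧ y ≠ s → x ∈ A₂ ∧ y ∈ A₂ := fun x y h =>
      ⟨(mem_insert.mp ((s₂ j).sup x y h.1).2.1).resolve_left h.2.1,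
        (mem_insert.mp ((s₂ j).sup x y h.1).2.2).resolve_left h.2.2⟩
    have P₂ := PP.link ((p₂ j).mono (E := fun x y => f₂ j x y ≠ 0 ∧ x ≠ s ∧ y ≠ s)
      fun x y h => h.1) A₂ (fun x y h => iff_of_true (k₂ x y h).1 (k₂ x y h).2) m₂ u₂
    have k₃ : ∀ x y, (f₂ j x y ≠ 0 ∧ x ≠ s ∧ y ≠ s) ∨ (x = q₂ ∧ y = u) ∨ (x = u ∧ y = q₂) →
        x ∉ A₁ ∧ y ∉ A₁ := by
      rintro x y (h | ⟨rfl, rfl⟩ | ⟨rfl, rfl⟩)
      · exact ⟨fun e => (n₁ x e).2.2.2 (k₂ x y h).1, fun e => (n₁ y e).2.2.2 (k₂ x y h).2⟩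
      · exact ⟨fun e => (n₁ x e).2.2.2 m₂, u₁⟩
      · exact ⟨u₁, fun e => (n₁ y e).2.2.2 m₂⟩
    have P₃ := PP.link (PP.union ((p₁ i).mono (E := fun x y => f₁ i x y ≠ 0 ∧ x ≠ s ∧ y ≠ s)
      fun x y h => h.1) P₂ A₁ k₁ k₃) A₁ (by
        rintro x y (h | h)
        · exact iff_of_true (k₁ x y h).1 (k₁ x y h).2
        · exact iff_of_false (k₃ x y h).1 (k₃ x y h).2) m₁ u₁
    refine P₃.mono fun x y ⟨h, hx, hy⟩ => ?_
    have hx' := hrs x hx
    have hy' := hrs y hy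
    rcases ne_add h with h | h
    · rcases ne_add h with h | h <;> rcases ne_add h with h | h
      · exact Or.inl (Or.inl ⟨h, hx', hy'⟩)
      · exact Or.inr (edge_ne (right_ne_zero_of_mul h))
      · exact Or.inl (Or.inr (Or.inl ⟨h, hx', hy'⟩))
      · exact Or.inl (Or.inr (Or.inr (edge_ne (right_ne_zero_of_mul h))))
    · rcases edge_ne (right_ne_zero_of_mul h) with h | h
      exacts [(hy' h.2).elim, (hx' h.1).elim]
  · have key : ∀ x, cov f x =
        (if x ∈ A₁ then cov (fun x y => f₁ i x y + i * edge q₁ u x y) x else 0) +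
        (if x ∈ A₂ then cov (fun x y => f₂ j x y + j * edge q₂ u x y) x else 0) +
        (if x = s then 1 else 0) + if x = u then (if i ≠ 0 ∨ j ≠ 0 then 1 else 0) else 0 := by
      intro x
      by_cases h1 : x ∈ A₁
      · obtain ⟨-, e2, e3, e4⟩ := n₁ x h1
        simp only [h1, e2, e3, e4, if_true, if_false, add_zero]
        refine cov_congr fun y => ?_
        simp only [hf0, z₂ x e3 e4, edge_eq_zero (ne_of_mem_of_not_mem m₂ e4).symm e2,
          edge_eq_zero e2 e3, mul_zero, add_zero]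
      · by_cases h2 : x ∈ A₂
        · obtain ⟨-, e2, e3⟩ := n₂ x h2
          simp only [h1, h2, e2, e3, if_true, if_false, add_zero, zero_add]
          refine cov_congr fun y => ?_
          simp only [hf0, z₁ x e3 h1, edge_eq_zero (ne_of_mem_of_not_mem m₁ h1).symm e2,
            edge_eq_zero e2 e3, mul_zero, add_zero, zero_add]
        · simp only [h1, h2, if_false, zero_add]
          by_cases h3 : x = s
          · rw [if_pos h3, if_neg (h3 ▸ hsu), add_zero, cov, if_pos]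
            have : bd f x ≠ 0 := by rw [hb, h3]; exact nb_ne.mpr hs
            obtain ⟨y, -, hy⟩ := exists_ne_zero_of_sum_ne_zero this
            exact ⟨y, hy⟩
          · by_cases h4 : x = u
            · subst h4
              have e : ∀ y, f x y = i * (if y = q₁ then 1 else 0) + j * (if y = q₂ then 1 else 0) +
                  (i + j) * if y = s then 1 else 0 := fun y => by
                simp [hf0, z₁ x h3 h1, z₂ x h3 h2, edge, a₁.ne', a₂.ne', h3]
              rw [if_neg h3, if_pos rfl, zero_add, cov]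
              refine if_congr ⟨fun ⟨y, hy⟩ => ?_, ?_⟩ rfl rfl
              · by_contra hc
                push Not at hc
                exact hy (by simp [e, hc.1, hc.2])
              · rintro (h | h)
                · exact ⟨q₁, by simpa [e, q₁₂, (n₁ _ m₁).2.2.1] using h⟩
                · exact ⟨q₂, by simpa [e, q₁₂.symm, (n₂ _ m₂).2.2] using h⟩
            · have h5 : x = w := by_contra fun h => h2 (hall x h h4 h3 h1)
              rw [if_neg h3, if_neg h4, add_zero, cov, if_neg]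
              rintro ⟨y, hy⟩
              exact (hf.sup x y hy).2.1 h5
    simp only [key, sum_add_distrib, sum_ite_mem, univ_inter, sum_ite_eq', mem_univ, if_true]
    exact hij

end Pool.Agent.P.MP_250062_co
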