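import Mathlib
import Pool.Agent.P.MP_250062_co.Toggle
import Pool.Agent.P.MP_250062_co.Structure

open Finset Relation

namespace Pool.Agent.P.MP_250062_co

variable {V : Type*} [Fintype V] [DecidableEq V] {G : SimpleGraph V} [DecidableRel G.Adj]

omit [DecidableEq V] in
theorem exists_nb {x : V} (S : Finset V) (h : #S < G.degree x) : ∃ y, G.Adj x y ∧ y ∉ S := by
  obtain ⟨y, hy, hy'⟩ := exists_mem_notMem_of_card_lt_card (s := S) (t := G.neighborFinset x) h
  exact ⟨y, by simpa using hy, hy'⟩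

theorem col_even (h3 : ∀ S : Finset V, #S ≤ 2 → Conn G (univ \ S)) (hδ : ∀ x, 4 ≤ G.degree x)
    (hn : (Fintype.card V : ZMod 2) = 1) {w x₀ : V} (hw : (G.degree w : ZMod 2) = 0)
    (hx : x₀ ≠ w) (hx₀ : (G.degree x₀ : ZMod 2) = 0) : Col G := by
  have hc : ∀ a, Conn G ((univ.erase w).erase a) := fun a => by
    have := h3 {w, a} card_le_two
    rwa [sdiff_insert, sdiff_singleton_eq_erase, erase_right_comm] at this
  by_cases h : ∃ s, G.Adj s w ∧ (G.degree s : ZMod 2) = 1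
  · obtain ⟨s, hs, hs'⟩ := h
    obtain ⟨t, ht, ht'⟩ := exists_nb (G := G) (x := s) {w} (by have := hδ s; simp; omega)
    rw [mem_singleton] at ht'
    have hsW : s ∈ univ.erase w := by simp [hs.ne]
    obtain ⟨A, h1, h2, h4, h5, ⟨y, hy, hy'⟩, h7⟩ := exists_split hsW (t := t) (by simp [ht.ne', ht'])
      (hc s) (fun A => ∃ y ∈ A, (G.degree y : ZMod 2) = 0)
      ⟨x₀, by simpa [hx] using fun e : x₀ = s => zero_ne_one (hx₀.symm.trans (e ▸ hs')), hx₀⟩
    have hA : ∀ x ∈ A, x ≠ s ∧ x ≠ w := fun x hx => by simpa using h2 hx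
    obtain ⟨z, hz⟩ : ∃ z, ∀ x ∈ A, x ≠ z → (G.degree x : ZMod 2) = 1 := by
      rcases h7 with h7 | ⟨z, hz, A', e1, e2, e3, -, -, e6, e7⟩
      · refine ⟨t, fun x hx hxt => ((hA s (mem_of_mem_erase (hc t (A.erase t)
          (fun v hv => ?_) ⟨x, mem_erase.mpr ⟨hxt, hx⟩⟩ (fun a ha b hb hab => ?_)
          (mem_erase.mpr ⟨ht.ne, hsW⟩)))).1 rfl).elim⟩
        · simp [ne_of_mem_erase hv, (hA v (mem_of_mem_erase hv)).2]
        · exact mem_erase.mpr ⟨ne_of_mem_erase hb,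
            h7 a (mem_of_mem_erase ha) (ne_of_mem_erase ha) b (mem_of_mem_erase hb) hab⟩
      · refine ⟨z, fun x hx hxz => ?_⟩
        by_cases hx' : x ∈ A'
        · exact (z2 _).resolve_left fun e => e6 ⟨x, hx', e⟩
        · refine ((mem_sdiff.mp (mem_of_mem_erase (hc z ((A \ A').erase z)
            (fun v hv => ?_) ⟨x, by simp [hxz, hx, hx']⟩ (fun a ha b hb hab => ?_)
            (mem_erase.mpr ⟨ne_of_mem_of_not_mem e2 e1, by simpa using ht'⟩)))).2 e2).elim
          · simp [ne_of_mem_erase hv, (hA v (mem_sdiff.mp (mem_of_mem_erase hv)).1).2]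
          · have ha' := mem_sdiff.mp (mem_of_mem_erase ha)
            exact mem_erase.mpr ⟨ne_of_mem_erase hb, mem_sdiff.mpr
              (e7 a ha'.1 ha'.2 (ne_of_mem_erase ha) b (mem_of_mem_erase hb) hab)⟩
    obtain rfl : y = z := by_contra fun e => zero_ne_one (hy'.symm.trans (hz y hy e))
    refine case_even hw hn h4 h5 (fun e => (hA w e).2 rfl) (by simp) (fun x hx => by simp [hx])
      (fun x hx hx' => by simp [hx, hx']) h1 (mem_sdiff.mpr ⟨hsW, fun e => (hA s e).1 rfl⟩) ?_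
      (Or.inr ⟨ht, hs, hs'⟩)
    rw [sum_eq_single_of_mem y hy fun x hx hxy => by rw [hz x hx hxy, z2_add_self], hy', zero_add]
  · push Not at h
    obtain ⟨t, ht, -⟩ := exists_nb (G := G) (x := w) ∅ (by have := hδ w; simp; omega)
    obtain ⟨r, hr, hr'⟩ := exists_nb (G := G) (x := w) {t} (by have := hδ w; simp; omega)
    rw [mem_singleton] at hr'
    refine case_even hw hn (conn_singleton t) (hc t) (by simp [ht.ne]) (by simp) (by simp)
      (fun x hx hx' => by simpa [hx] using hx') (mem_singleton_self t) (r := r)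
      (by simp [hr', hr.ne']) ?_ (Or.inl ?_)
    · rw [sum_singleton, (z2 _).resolve_right (h t ht.symm), zero_add]
    · rw [sum_singleton, nb, if_pos ht.symm]

theorem col_theta {w s u : V} (hw : (G.degree w : ZMod 2) = 0)
    (hd : ∀ x, x ≠ w → (G.degree x : ZMod 2) = 1) (h5 : 4 ≤ G.degree s) (hs : G.Adj s w)
    (hcut : Uncut G w s) (hsu : G.Adj s u) (huw : u ≠ w) (hu : ¬ G.Adj u w) : Col G := by
  set W : Finset V := (univ.erase w).erase u with hW
  have mW : ∀ x, x ∈ W ↔ x ≠ u ∧ x ≠ w := by simp [hW]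
  have hsW : s ∈ W := (mW s).mpr ⟨hsu.ne, hs.ne⟩
  have hc : Conn G (W.erase s) := by
    convert hcut.conn u using 1
    ext x
    simp only [mem_erase, mW, mem_sdiff, mem_univ, mem_insert, mem_singleton]
    tauto
  obtain ⟨t, ht, ht'⟩ := exists_nb (G := G) (x := s) {w, u} (card_le_two.trans_lt (by omega))
  simp only [mem_insert, mem_singleton, not_or] at ht'
  obtain ⟨A, h1, h2, -, -, h6, h7⟩ := exists_split hsW (t := t)
    (mem_erase.mpr ⟨ht.ne', (mW t).mpr ⟨ht'.2, ht'.1⟩⟩) hc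
    (fun A => ∀ q, G.Adj u q → q ≠ s → q ∈ A) fun q hq hqs =>
      mem_erase.mpr ⟨hqs, (mW q).mpr ⟨hq.ne', fun e => hu (e ▸ hq)⟩⟩
  have hA : ∀ x ∈ A, x ≠ s ∧ x ≠ u ∧ x ≠ w := fun x hx => by simpa [mW] using h2 hx
  rcases h7 with h7 | ⟨z, hz, A', e1, e2, e3, e4, e5, e6, e7⟩
  · exfalso
    obtain ⟨y, hy, hy'⟩ := exists_nb (G := G) (x := s) {w, u, t} (card_le_three.trans_lt (by omega))
    simp only [mem_insert, mem_singleton, not_or] at hy'
    have m : ∀ x, x ∈ (W \ A).erase s ↔ x ≠ s ∧ (x ≠ u ∧ x ≠ w) ∧ x ∉ A := by simp [mW]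
    obtain ⟨Y, hY⟩ := exists_sep (G := G) (w := w) (X := (W \ A).erase s) (S := {s, t})
      ⟨y, (m y).mpr ⟨hy.ne', ⟨hy'.2.1, hy'.1⟩, fun e =>
        (hA s (h7 y e hy'.2.2 s hsW hy.symm)).1 rfl⟩⟩
      (fun v hv => by
        rw [m] at hv
        simp [hv.1, (ne_of_mem_of_not_mem h1 hv.2.2).symm]) (by simp [m])
      (fun x hx v hxv => by
        rw [m] at hx ⊢
        have k1 : v ≠ u := fun e => hx.2.2 (h6 x (e ▸ hxv.symm) hx.1)
        have k2 : v ∈ A → v = t := fun e => by_contra fun e' =>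
          hx.2.2 (h7 v e e' x ((mW x).mpr hx.2.1) hxv.symm)
        simp only [mem_insert, mem_singleton]
        tauto) (y := u) (by simp [m]) (by simp [hsu.ne', Ne.symm ht'.2]) huw
    exact hcut _ _ _ hY card_le_two (by simp)
  · by_cases hq : ∃ q ∈ A', G.Adj u q
    · obtain ⟨q₁, m₁, a₁⟩ := hq
      push Not at e6
      obtain ⟨q₂, a₂, m₂, m₂'⟩ := e6
      have m : ∀ x, x ∈ (W \ A').erase s ↔ x ≠ s ∧ (x ≠ u ∧ x ≠ w) ∧ x ∉ A' := by simp [mW]
      refine toggle (A₂ := (W \ A').erase s) hw hd hu huw hs hsu.symm (e4.insert e2 ht.symm) ?_ m₁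
        ((m _).mpr ⟨m₂, (hA _ (h6 _ a₂ m₂)).2, m₂'⟩) a₁.symm a₂.symm (fun x hx => ?_)
        (fun x hx => ?_) fun x k1 k2 k3 k4 => (m x).mpr ⟨k3, ⟨k2, k1⟩, k4⟩
      · rwa [insert_erase (mem_sdiff.mpr ⟨hsW, fun e => (hA s (e3 e)).1 rfl⟩)]
      · have := hA x (e3 hx)
        exact ⟨this.2.2, this.2.1, this.1, fun e => ((m x).mp e).2.2 hx⟩
      · have := (m x).mp hx
        exact ⟨this.2.1.2, this.2.1.1, this.1⟩
    · exfalso
      push Not at hq
      have m : ∀ x, x ∈ (W \ (A \ A')).erase s ↔ x ≠ s ∧ (x ≠ u ∧ x ≠ w) ∧ ¬ (x ∈ A ∧ x ∉ A') := by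
        intro x
        rw [mem_erase, mem_sdiff, mem_sdiff, mW]
      obtain ⟨Y, hY⟩ := exists_sep (G := G) (w := w) (X := (W \ (A \ A')).erase s) (S := {s, z})
        ⟨t, (m t).mpr ⟨ht.ne', ⟨ht'.2, ht'.1⟩, fun e => e.2 e2⟩⟩
        (fun v hv => by
          rw [m] at hv
          have : v ≠ z := fun e => hv.2.2 (e ▸ ⟨hz, e1⟩)
          simp [hv.1, this]) (fun e => ((m w).mp e).2.1.2 rfl)
        (fun x hx v hxv => by
          rw [m] at hx ⊢
          have k1 : v ≠ u := fun e =>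
            hx.2.2 ⟨h6 x (e ▸ hxv.symm) hx.1, fun e' => hq x e' (e ▸ hxv.symm)⟩
          have k2 : v ∈ A ∧ v ∉ A' → v = z := fun e => by_contra fun e' =>
            hx.2.2 (e7 v e.1 e.2 e' x ((mW x).mpr hx.2.1) hxv.symm)
          simp only [mem_insert, mem_singleton]
          tauto) (y := u) (fun e => ((m u).mp e).2.1.1 rfl)
        (by simp [hsu.ne', (hA z hz).2.1.symm]) huw
      exact hcut _ _ _ hY card_le_two (by simp)

theorem col_one (h3 : ∀ S : Finset V, #S ≤ 2 → Conn G (univ \ S)) (hδ : ∀ x, 4 ≤ G.degree x)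
    (hn : (Fintype.card V : ZMod 2) = 1) {w : V} (hw : (G.degree w : ZMod 2) = 0)
    (hd : ∀ x, x ≠ w → (G.degree x : ZMod 2) = 1) : Col G := by
  by_contra hcol
  have h5 : ∀ x, x ≠ w → 5 ≤ G.degree x := fun x hx => by
    have h1 := hδ x
    have h2 := ZMod.natCast_eq_one_iff_odd.mp (hd x hx)
    rw [Nat.odd_iff] at h2
    omega
  have safe : ∀ s, G.Adj s w → Uncut G w s → ∀ y, G.Adj s y → y = w ∨ G.Adj y w :=
    fun s hs hc y hy => by
      by_contra h
      rw [not_or] at h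
      exact hcol (col_theta hw hd (hδ s) hs hc hy h.1 h.2)
  have pair : ∀ u v, G.Adj u w → G.Adj v w → Uncut G w u → Uncut G w v → u ≠ v → G.Adj u v := by
    intro u v hu hv cu cv huv
    by_contra h
    obtain ⟨r, hr, hr'⟩ := exists_nb (G := G) (x := w) {u, v}
      (card_le_two.trans_lt (by have := hδ w; omega))
    exact hcol (case_pair (r := r) hw hd (cu.conn v) (by simpa [hr.ne'] using hr') hu.ne hv.ne huv h
      (safe u hu cu) (safe v hv cv))
  by_cases hsep : ∃ X S Y, Sep G w X S Y ∧ #S ≤ 2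
  · obtain ⟨X, S, Y, h, hS⟩ := hsep
    obtain ⟨X₀, S₀, Y₀, a1, a2, a3, a4⟩ := exists_min h hS
    obtain ⟨X₁, S₁, Y₁, b1, b2, b3, b4⟩ := exists_min h.symm hS
    obtain ⟨u, hu, hu'⟩ := a2.exists_adj h3 a3
    obtain ⟨v, hv, hv'⟩ := b2.exists_adj h3 b3
    exact h.adj u (a1 hu) v (b1 hv) (pair u v hu' hv' (uncut_of_min h3 h5 a2 a3 a4 hu)
      (uncut_of_min h3 h5 b2 b3 b4 hv) fun e => h.xy u (a1 hu) (e ▸ b1 hv))
  · have hc : ∀ s, Uncut G w s := fun s X S Y h hS _ => hsep ⟨X, S, Y, h, hS⟩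
    obtain ⟨u, hu, -⟩ := exists_nb (G := G) (x := w) ∅ (by have := hδ w; simp; omega)
    have hN := h3 {w} (by simp) (G.neighborFinset w) (fun x hx => by
      simpa using ((G.mem_neighborFinset _ _).mp hx).ne') ⟨u, by simpa using hu⟩
      fun x hx y hy hxy => by
        rw [G.mem_neighborFinset] at hx ⊢
        exact ((safe x hx.symm (hc x) y hxy).resolve_left (by simpa using hy)).symm
    have h1 : G.neighborFinset u = univ.erase u := by
      ext y
      simp only [G.mem_neighborFinset, mem_erase, mem_univ, and_true]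
      refine ⟨fun h => h.ne', fun h => ?_⟩
      by_cases hy : y = w
      · exact hy ▸ hu.symm
      · exact pair u y hu.symm ((G.mem_neighborFinset _ _).mp (hN (by simpa using hy))).symm
          (hc u) (hc y) (Ne.symm h)
    have h2 := card_erase_add_one (mem_univ u)
    rw [← h1, G.card_neighborFinset_eq_degree, card_univ] at h2
    rw [← h2, Nat.cast_add, hd u hu.ne', Nat.cast_one, z2_add_self] at hn
    exact zero_ne_one hn

theorem col_main (hconn : ∀ S : Finset V, #S < 3 → (G.induce (S : Set V)ᶜ).Connected)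
    (hodd : Odd (Fintype.card V)) (hδ : 4 ≤ G.minDegree) : Col G := by
  have h3 : ∀ S : Finset V, #S ≤ 2 → Conn G (univ \ S) := by
    intro S hS X hX ⟨x, hx⟩ hc y hy
    have m : ∀ v, v ∈ univ \ S ↔ v ∈ (S : Set V)ᶜ := by simp
    have := (hconn S (by omega)).preconnected ⟨x, (m x).mp (hX hx)⟩ ⟨y, (m y).mp hy⟩
    rw [SimpleGraph.reachable_iff_reflTransGen] at this
    have key : ∀ b : ((S : Set V)ᶜ : Set V), ReflTransGen (G.induce (S : Set V)ᶜ).Adj
        ⟨x, (m x).mp (hX hx)⟩ b → b.1 ∈ X := fun b hb => by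
      induction hb with
      | refl => exact hx
      | @tail b c _ hbc ih => exact hc b ih c ((m c).mpr c.2) hbc
    exact key _ this
  have hδ' : ∀ x, 4 ≤ G.degree x := fun x => hδ.trans (G.minDegree_le_degree x)
  have hn := ZMod.natCast_eq_one_iff_odd.mpr hodd
  obtain ⟨w, hw⟩ : ∃ w, (G.degree w : ZMod 2) = 0 := by
    by_contra h
    push Not at h
    have := sum_degree (G := G)
    simp only [z2_ne.mp (h _), sum_const, card_univ, nsmul_eq_mul, mul_one, hn] at this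
    exact one_ne_zero this
  by_cases h : ∃ x, x ≠ w ∧ (G.degree x : ZMod 2) = 0
  · obtain ⟨x, hx, hx'⟩ := h
    exact col_even h3 hδ' hn hw hx hx'
  · push Not at h
    exact col_one h3 hδ' hn hw fun x hx => z2_ne.mp (h x hx)

end Pool.Agent.P.MP_250062_co
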